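import Mathlib

/-!
For every `β ∈ (0,1)` the recurrence `x_{n+1} = (β x_n + x_{n-1}) / x_{n-2}` has unbounded
positive solutions.
-/

namespace Pool.Agent.Results.MP_1cbbe5_an.Unbounded

/-- The invariant, in logarithmic coordinates. -/
def Inv (X : ℕ → ℝ) (D σ : ℝ) (n : ℕ) : Prop :=
  D + 10 * σ ≤ X n - X (n + 1) ∧ D + 10 * σ ≤ X (n + 2) - X (n + 1) ∧
    D + 10 * σ ≤ X n ∧ D + 10 * σ ≤ X (n + 2)

lemma step {X : ℕ → ℝ} {D σ : ℝ} (hσ : 0 < σ)
    (l1 : ∀ n, X (n + 2) - σ - X n ≤ X (n + 3)) (l2 : ∀ n, X (n + 1) - X n ≤ X (n + 3))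
    (u1 : ∀ n, D ≤ X (n + 2) - σ - X (n + 1) → X (n + 3) ≤ X (n + 2) - σ - X n + σ / 100)
    (u2 : ∀ n, D ≤ X (n + 1) - (X (n + 2) - σ) → X (n + 3) ≤ X (n + 1) - X n + σ / 100)
    {n : ℕ} (h : Inv X D σ n) : Inv X D σ (n + 8) ∧ X n + σ ≤ X (n + 8) := by
  obtain ⟨h0, h1, h2, h3⟩ := h
  have a3 := l1 n
  have b3 := u1 n (by linarith)
  have a4 := l2 (n + 1)
  have b4 := u2 (n + 1)
  rw [show n + 1 + 3 = n + 4 by ring, show n + 1 + 1 = n + 2 by ring] at a4
  rw [show n + 1 + 3 = n + 4 by ring, show n + 1 + 2 = n + 3 by ring,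
    show n + 1 + 1 = n + 2 by ring] at b4
  replace b4 := b4 (by linarith)
  have a5 := l1 (n + 2)
  have b5 := u1 (n + 2)
  rw [show n + 2 + 3 = n + 5 by ring, show n + 2 + 2 = n + 4 by ring] at a5
  rw [show n + 2 + 3 = n + 5 by ring, show n + 2 + 2 = n + 4 by ring,
    show n + 2 + 1 = n + 3 by ring] at b5
  replace b5 := b5 (by linarith)
  have a6 := l2 (n + 3)
  have b6 := u2 (n + 3)
  rw [show n + 3 + 3 = n + 6 by ring, show n + 3 + 1 = n + 4 by ring] at a6
  rw [show n + 3 + 3 = n + 6 by ring, show n + 3 + 2 = n + 5 by ring,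
    show n + 3 + 1 = n + 4 by ring] at b6
  replace b6 := b6 (by linarith)
  have a7 := l1 (n + 4)
  have b7 := u1 (n + 4)
  rw [show n + 4 + 3 = n + 7 by ring, show n + 4 + 2 = n + 6 by ring] at a7
  rw [show n + 4 + 3 = n + 7 by ring, show n + 4 + 2 = n + 6 by ring,
    show n + 4 + 1 = n + 5 by ring] at b7
  replace b7 := b7 (by linarith)
  have a8 := l2 (n + 5)
  have b8 := u2 (n + 5)
  rw [show n + 5 + 3 = n + 8 by ring, show n + 5 + 1 = n + 6 by ring] at a8
  rw [show n + 5 + 3 = n + 8 by ring, show n + 5 + 2 = n + 7 by ring,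
    show n + 5 + 1 = n + 6 by ring] at b8
  replace b8 := b8 (by linarith)
  have a9 := l1 (n + 6)
  have b9 := u1 (n + 6)
  rw [show n + 6 + 3 = n + 9 by ring, show n + 6 + 2 = n + 8 by ring] at a9
  rw [show n + 6 + 3 = n + 9 by ring, show n + 6 + 2 = n + 8 by ring,
    show n + 6 + 1 = n + 7 by ring] at b9
  replace b9 := b9 (by linarith)
  have a10 := l2 (n + 7)
  have b10 := u2 (n + 7)
  rw [show n + 7 + 3 = n + 10 by ring, show n + 7 + 1 = n + 8 by ring] at a10
  rw [show n + 7 + 3 = n + 10 by ring, show n + 7 + 2 = n + 9 by ring,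
    show n + 7 + 1 = n + 8 by ring] at b10
  replace b10 := b10 (by linarith)
  unfold Inv
  rw [show n + 8 + 1 = n + 9 by ring, show n + 8 + 2 = n + 10 by ring]
  refine ⟨⟨?_, ?_, ?_, ?_⟩, ?_⟩
  · linarith
  · linarith
  · linarith
  · linarith
  · linarith

lemma unbounded_of_inv {X : ℕ → ℝ} {D σ : ℝ} (hσ : 0 < σ)
    (l1 : ∀ n, X (n + 2) - σ - X n ≤ X (n + 3)) (l2 : ∀ n, X (n + 1) - X n ≤ X (n + 3))
    (u1 : ∀ n, D ≤ X (n + 2) - σ - X (n + 1) → X (n + 3) ≤ X (n + 2) - σ - X n + σ / 100)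
    (u2 : ∀ n, D ≤ X (n + 1) - (X (n + 2) - σ) → X (n + 3) ≤ X (n + 1) - X n + σ / 100)
    (h : Inv X D σ 0) (C : ℝ) : ∃ n, C < X n := by
  have key : ∀ j : ℕ, ∃ n, Inv X D σ n ∧ X 0 + j * σ ≤ X n := by
    intro j
    induction j with
    | zero => exact ⟨0, h, by simp⟩
    | succ j ih =>
      obtain ⟨n, hn, hS⟩ := ih
      obtain ⟨hm, hS'⟩ := step hσ l1 l2 u1 u2 hn
      refine ⟨n + 8, hm, ?_⟩
      push_cast
      linarith
  obtain ⟨j, hj⟩ := exists_nat_gt ((C - X 0) / σ)
  rw [div_lt_iff₀ hσ] at hj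
  obtain ⟨n, hn, hS⟩ := key j
  exact ⟨n, by linarith⟩

lemma log_add_le {u v D ε : ℝ} (h : D ≤ Real.log u - Real.log v) (hu : 0 < u) (hv : 0 < v)
    (hD : Real.exp (-D) ≤ ε) : Real.log (u + v) ≤ Real.log u + ε := by
  have h1 : v / u ≤ Real.exp (-D) := by
    rw [← Real.log_le_iff_le_exp (by positivity), Real.log_div hv.ne' hu.ne']
    linarith
  have h2 : u + v = u * (1 + v / u) := by field_simp
  have h3 : 0 < v / u := by positivity
  rw [h2, Real.log_mul hu.ne' (by positivity)]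
  have h4 : Real.log (1 + v / u) ≤ (1 + v / u) - 1 := Real.log_le_sub_one_of_pos (by positivity)
  linarith

/-- For every `β ∈ (0,1)` there is an unbounded solution with positive initial values. -/
theorem result (β : ℝ) (hβ : 0 < β) (hβ1 : β < 1) :
    ∃ x : ℕ → ℝ, (∀ n, 0 < x n) ∧ (∀ n, x (n + 3) = (β * x (n + 2) + x (n + 1)) / x n) ∧
      ∀ M : ℝ, ∃ n, M < x n := by
  set σ := -Real.log β with hσdef
  have hσ : 0 < σ := by
    have := Real.log_neg hβ hβ1
    linarith
  set D := |Real.log (σ / 100)| with hD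
  have hexpD : Real.exp (-D) ≤ σ / 100 := by
    have h1 : -D ≤ Real.log (σ / 100) := neg_abs_le _
    calc Real.exp (-D) ≤ Real.exp (Real.log (σ / 100)) := Real.exp_le_exp.2 h1
      _ = σ / 100 := Real.exp_log (by positivity)
  have main : ∀ x : ℕ → ℝ, (∀ n, 0 < x n) →
      (∀ n, x (n + 3) = (β * x (n + 2) + x (n + 1)) / x n) →
      x 0 = Real.exp (D + 10 * σ) → x 1 = 1 → x 2 = Real.exp (D + 10 * σ) →
      ∀ M : ℝ, ∃ n, M < x n := by
    intro x hpos hrec h0 h1 h2 M
    have hX : ∀ n, Real.log (x (n + 3)) =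
        Real.log (β * x (n + 2) + x (n + 1)) - Real.log (x n) := by
      intro n
      have := hpos (n + 2)
      have := hpos (n + 1)
      rw [hrec n, Real.log_div (by positivity) (hpos n).ne']
    have hb : ∀ n, Real.log (β * x (n + 2)) = Real.log (x (n + 2)) - σ := by
      intro n
      rw [Real.log_mul hβ.ne' (hpos _).ne', hσdef]
      ring
    have hinv : Inv (fun n => Real.log (x n)) D σ 0 := by
      have e0 : Real.log (x 0) = D + 10 * σ := by rw [h0, Real.log_exp]
      have e1 : Real.log (x 1) = 0 := by rw [h1, Real.log_one]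
      have e2 : Real.log (x 2) = D + 10 * σ := by rw [h2, Real.log_exp]
      refine ⟨?_, ?_, ?_, ?_⟩
      · show _ ≤ Real.log (x 0) - Real.log (x 1)
        linarith
      · show _ ≤ Real.log (x 2) - Real.log (x 1)
        linarith
      · show _ ≤ Real.log (x 0)
        linarith
      · show _ ≤ Real.log (x 2)
        linarith
    obtain ⟨n, hn⟩ := unbounded_of_inv (X := fun n => Real.log (x n)) (D := D) hσ
      (fun n => by
        have := Real.log_le_log (show 0 < β * x (n + 2) from mul_pos hβ (hpos _))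
          (show β * x (n + 2) ≤ β * x (n + 2) + x (n + 1) by linarith [hpos (n + 1)])
        rw [hb] at this
        show Real.log (x (n + 2)) - σ - Real.log (x n) ≤ Real.log (x (n + 3))
        rw [hX n]
        linarith)
      (fun n => by
        have := Real.log_le_log (hpos (n + 1))
          (show x (n + 1) ≤ β * x (n + 2) + x (n + 1) by
            have := mul_pos hβ (hpos (n + 2))
            linarith)
        show Real.log (x (n + 1)) - Real.log (x n) ≤ Real.log (x (n + 3))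
        rw [hX n]
        linarith)
      (fun n hd => by
        have := log_add_le (u := β * x (n + 2)) (v := x (n + 1)) (D := D) (ε := σ / 100)
          (by rw [hb]; exact hd) (mul_pos hβ (hpos _)) (hpos _) hexpD
        rw [hb] at this
        show Real.log (x (n + 3)) ≤ Real.log (x (n + 2)) - σ - Real.log (x n) + σ / 100
        rw [hX n]
        linarith)
      (fun n hd => by
        have := log_add_le (u := x (n + 1)) (v := β * x (n + 2)) (D := D) (ε := σ / 100)
          (by rw [hb]; exact hd) (hpos _) (mul_pos hβ (hpos _)) hexpD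
        rw [add_comm (x (n + 1))] at this
        show Real.log (x (n + 3)) ≤ Real.log (x (n + 1)) - Real.log (x n) + σ / 100
        rw [hX n]
        linarith)
      hinv M
    refine ⟨n, ?_⟩
    have h3 : Real.log (x n) ≤ x n - 1 := Real.log_le_sub_one_of_pos (hpos n)
    linarith
  set f : ℕ → ℝ × ℝ × ℝ := fun n =>
    Nat.rec ((Real.exp (D + 10 * σ), 1, Real.exp (D + 10 * σ)) : ℝ × ℝ × ℝ)
      (fun _ s => (s.2.1, s.2.2, (β * s.2.2 + s.2.1) / s.1)) n with hf
  have hfs : ∀ n, f (n + 1) =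
      ((f n).2.1, (f n).2.2, (β * (f n).2.2 + (f n).2.1) / (f n).1) := fun n => rfl
  have hpos : ∀ n, 0 < (f n).1 ∧ 0 < (f n).2.1 ∧ 0 < (f n).2.2 := by
    intro n
    induction n with
    | zero => exact ⟨Real.exp_pos _, one_pos, Real.exp_pos _⟩
    | succ n ih =>
      rw [hfs]
      obtain ⟨i1, i2, i3⟩ := ih
      exact ⟨i2, i3, by positivity⟩
  have hrec : ∀ n, (f (n + 3)).1 = (β * (f (n + 2)).1 + (f (n + 1)).1) / (f n).1 := by
    intro n
    rw [hfs (n + 2), hfs (n + 1), hfs n]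
  exact ⟨fun n => (f n).1, fun n => (hpos n).1, hrec,
    main _ (fun n => (hpos n).1) hrec rfl rfl rfl⟩

end Pool.Agent.Results.MP_1cbbe5_an.Unbounded
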